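import Pool.Agent.H57.LH.Targets2
import Pool.Agent.H19.KR.CYC

/-!
# Structures with local completions: zigzag cycles of pairs with elements of two types (CYG)
-/

set_option autoImplicit false

namespace Pool.Agent.H33.LH

open Pool.Agent.H68.BP Pool.Agent.H58.SF Pool.Agent.H53.GC Pool.Agent.H53.NR
open Pool.Agent.H53.GR (Dm Ps)
open Pool.Agent.H57.AR (tp ty tpo pullO Ty OT HomEq El ElD FamR Od GmR INJ lft)
open Pool.Agent.H57.SO (Pal Col vt Bh Sbn fib sigF)
open Pool.Agent.H57.EQ (Cx T_CYF)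
open Pool.Agent.H57.LCI (LocalCompletions Pre Realizes)
open Pool.Agent.H44.KR (HB Amg Tyi Rz Rlz Clp LInj Prm TpOn RmL LcN Pl lr blk Fv kv RkI Kd JJ Yc
  IsTh Can Plf Pls)
open Pool.Agent.H19.KR (tp_iff tp_comp tp_ty pair_eta tp_swap edS rz_edge cyc_inj)
open Pool.Agent.H57.LH Function
open Classical

section

variable {V W Z : Type} {ρ : Sig} {𝔹 : Str ρ V}

/-- paths -/
theorem CYG_path (hA : Amg 𝔹) (P : ℕ → Fin 2 → V) (t : ℕ → Fin ρ.m → Prop)
    (ht0 : ∀ k, ty 𝔹 (P k 0) = t k) (ht1 : ∀ k, ty 𝔹 (P k 1) = t (k + 1)) :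
    ∃ g : ℕ → V, (∀ k, ty 𝔹 (g k) = t k) ∧ ∀ k, tp 𝔹 ![g k, g (k + 1)] = tp 𝔹 (P k) := by
  have hstep : ∀ (k : ℕ) (x : V), ∃ y : V, ty 𝔹 x = t k →
      ty 𝔹 y = t (k + 1) ∧ tp 𝔹 ![x, y] = tp 𝔹 (P k) := by
    intro k x
    by_cases hx : ty 𝔹 x = t k
    · obtain ⟨x', h1, h2, -⟩ := hA (Fin 2) {0} (P k) (fun _ => x) ∅ (by
        refine ⟨fun a ha b hb => ?_, fun l z hz => ?_⟩
        · rw [Set.mem_singleton_iff] at ha hb
          rw [ha, hb]
          exact ⟨fun _ => rfl, fun _ => rfl⟩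
        · have e : (fun i => P k (z i)) = fun _ => P k 0 := by
            funext i
            rw [Set.mem_singleton_iff.1 (hz i)]
          rw [e]
          have h3 := congrFun ((ht0 k).trans hx.symm) l
          exact iff_of_eq h3)
      have h4 : ty 𝔹 (x' 1) = t (k + 1) := by
        rw [tp_ty h1 1]
        exact ht1 k
      refine ⟨x' 1, fun _ => ⟨h4, ?_⟩⟩
      have h5 : x = x' 0 := (h2 0 rfl).symm
      rw [h5, pair_eta, h1]
    · exact ⟨x, fun h => absurd h hx⟩
  choose nx hnx using hstep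
  obtain ⟨g, hg0, hg⟩ : ∃ g : ℕ → V, g 0 = P 0 0 ∧ ∀ k, g (k + 1) = nx k (g k) :=
    ⟨fun k => Nat.rec (P 0 0) (fun k x => nx k x) k, rfl, fun k => rfl⟩
  have hty : ∀ k, ty 𝔹 (g k) = t k := by
    intro k
    induction k with
    | zero => rw [hg0, ht0]
    | succ k ih =>
      rw [hg]
      exact (hnx k (g k) ih).1
  refine ⟨g, hty, fun k => ?_⟩
  rw [hg]
  exact (hnx k (g k) (hty k)).2

theorem CYG_core (hA : Amg 𝔹) (N : ℕ) (hL : LcN 𝔹 N) (n : ℕ) (hn : N < n) (h2 : 2 ≤ n)
    (P : ℕ → Fin 2 → V) (t : ℕ → Fin ρ.m → Prop) (hne : ∀ k, P k 0 ≠ P k 1)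
    (hper : ∀ k, t (k + n) = t k) (ht0 : ∀ k, k < n → ty 𝔹 (P k 0) = t k)
    (ht1 : ∀ k, k < n → ty 𝔹 (P k 1) = t (k + 1)) : ∃ f : ℕ → V,
      (∀ k, k + 1 < n → tp 𝔹 ![f k, f (k + 1)] = tp 𝔹 (P k)) ∧
      tp 𝔹 ![f (n - 1), f 0] = tp 𝔹 (P (n - 1)) := by
  obtain ⟨nx, hnx⟩ : ∃ nx : Fin n → Fin n, ∀ a : Fin n,
      (nx a : ℕ) = if (a : ℕ) + 1 = n then (0 : ℕ) else (a : ℕ) + 1 :=
    ⟨fun a => ⟨if (a : ℕ) + 1 = n then (0 : ℕ) else (a : ℕ) + 1, by
      have := a.isLt
      split_ifs <;> omega⟩, fun a => rfl⟩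
  have hnxne : ∀ a, a ≠ nx a := by
    intro a h
    have h1 := hnx a
    rw [← h] at h1
    split_ifs at h1 <;> omega
  have htm : ∀ k, t (k % n) = t k := Function.Periodic.map_mod_nat (f := t) hper
  have hpos : 0 < n := by omega
  obtain ⟨g, hg1, hg2⟩ := CYG_path hA (fun k => P (k % n)) t
    (fun k => (ht0 _ (Nat.mod_lt k hpos)).trans (htm k))
    (fun k => (ht1 _ (Nat.mod_lt k hpos)).trans (by
      rw [← htm (k % n + 1), Nat.mod_add_mod, htm]))
  obtain ⟨f, hf⟩ := hL (Fin n) (Fin n) (fun a => {x | x = a ∨ x = nx a})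
    (fun a => edS 𝔹 (P a) a) (by
      intro U hU
      obtain ⟨v, hv⟩ : ∃ v : Fin n, v ∉ U := by
        by_contra hcon
        have h3 : U = Finset.univ := by
          rw [Finset.eq_univ_iff_forall]
          intro v
          by_contra hv
          exact hcon ⟨v, hv⟩
        rw [h3, Finset.card_univ, Fintype.card_fin] at hU
        omega
      refine ⟨fun x => g (if v < x then (x : ℕ) else x + n), fun a => ?_⟩
      by_cases hboth : a ∈ U ∧ nx a ∈ U
      · -- the edge is realized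
        have hav : a ≠ v := fun h => hv (h ▸ hboth.1)
        have hnv : nx a ≠ v := fun h => hv (h ▸ hboth.2)
        have h3 : tp 𝔹 ![g (if v < a then (a : ℕ) else a + n),
            g (if v < nx a then (nx a : ℕ) else nx a + n)] = tp 𝔹 (P a) := by
          have hav' : (a : ℕ) ≠ v := fun h => hav (Fin.ext h)
          have hnv' : (nx a : ℕ) ≠ v := fun h => hnv (Fin.ext h)
          have hva : v < a ↔ (v : ℕ) < a := Fin.lt_def
          have hvn : v < nx a ↔ (v : ℕ) < nx a := Fin.lt_def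
          have hx := hnx a
          have haN := a.isLt
          have hvN := v.isLt
          have key : ∃ k : ℕ, (if v < a then (a : ℕ) else a + n) = k ∧
              (if v < nx a then (nx a : ℕ) else nx a + n) = k + 1 ∧ k % n = a := by
            by_cases h4 : v < a
            · refine ⟨a, if_pos h4, ?_, Nat.mod_eq_of_lt haN⟩
              rw [hva] at h4
              by_cases h5 : (a : ℕ) + 1 = n
              · rw [if_pos h5] at hx
                rw [if_neg (by rw [hvn, hx]; omega), hx, zero_add, h5]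
              · rw [if_neg h5] at hx
                rw [if_pos (by rw [hvn, hx]; omega), hx]
            · refine ⟨a + n, if_neg h4, ?_, by rw [Nat.add_mod_right, Nat.mod_eq_of_lt haN]⟩
              rw [hva] at h4
              by_cases h5 : (a : ℕ) + 1 = n
              · omega
              · rw [if_neg h5] at hx
                rw [if_neg (by rw [hvn, hx]; omega), hx]
                omega
          obtain ⟨k, hk1, hk2, hk3⟩ := key
          rw [hk1, hk2]
          have h6 := hg2 k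
          rw [hk3] at h6
          exact h6
        have h7 := (rz_edge (hnxne a) (hne a)
          (fun x : Fin n => g (if v < x then (x : ℕ) else x + n))).1 h3
        exact ⟨fun x hx y hy hxy => h7.1 x hx.1 y hy.1 hxy,
          fun l z hz => h7.2 l z fun i => (hz i).1⟩
      · -- a single vertex
        have hsub : ∃ w, (w = a ∨ w = nx a) ∧ ∀ x, (x = a ∨ x = nx a) → x ∈ U → x = w := by
          by_cases ha : a ∈ U
          · have hna : nx a ∉ U := fun h => hboth ⟨ha, h⟩
            refine ⟨a, Or.inl rfl, fun x hx hxU => ?_⟩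
            rcases hx with hx | hx
            · exact hx
            · rw [hx] at hxU
              exact absurd hxU hna
          · refine ⟨nx a, Or.inr rfl, fun x hx hxU => ?_⟩
            rcases hx with hx | hx
            · rw [hx] at hxU
              exact absurd hxU ha
            · exact hx
        obtain ⟨w, hwa, hw⟩ := hsub
        refine ⟨fun x hx y hy _ => ?_, fun l z hz => ?_⟩
        · exact (hw x hx.1 hx.2).trans (hw y hy.1 hy.2).symm
        · have hzw : ∀ i, z i = w := fun i => hw (z i) (hz i).1 (hz i).2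
          have e1 : (fun i => g (if v < z i then (z i : ℕ) else z i + n)) =
              fun _ => g (if v < w then (w : ℕ) else w + n) := by
            funext i
            rw [hzw i]
          have h8 : ty 𝔹 (g (if v < w then (w : ℕ) else w + n)) = t w := by
            rw [hg1]
            split_ifs
            · rfl
            · exact hper _
          have h9 : ∃ c : Fin 2, edS 𝔹 (P a) a l (fun _ => w) = 𝔹 l (fun _ => P a c) ∧
              ty 𝔹 (P a c) = t w := by
            rcases hwa with hwa | hwa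
            · refine ⟨0, congrArg (𝔹 l) (funext fun i => congrArg (P a) (if_pos hwa)), ?_⟩
              rw [ht0 _ a.isLt, hwa]
            · refine ⟨1, congrArg (𝔹 l) (funext fun i => congrArg (P a)
                (if_neg (fun h => hnxne a (h.symm.trans hwa)))), ?_⟩
              rw [ht1 _ a.isLt, hwa, hnx]
              split_ifs with h5
              · rw [h5, ← hper 0, zero_add]
              · rfl
          obtain ⟨c, hc, hc'⟩ := h9
          have e2 : edS 𝔹 (P a) a l (fun i => id (z i)) =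
              edS 𝔹 (P a) a l (fun _ => w) :=
            congrArg (edS 𝔹 (P a) a l) (funext fun i => hzw i)
          rw [e1, e2, hc]
          exact iff_of_eq (congrFun (h8.trans hc'.symm) l))
  have hf' : ∀ a, tp 𝔹 ![f a, f (nx a)] = tp 𝔹 (P a) := fun a =>
    (rz_edge (hnxne a) (hne a) f).2 (hf a)
  refine ⟨fun k => if h : k < n then f ⟨k, h⟩ else f ⟨0, by omega⟩, fun k hk => ?_, ?_⟩
  · have hk0 : k < n := by omega
    have h3 := hf' ⟨k, hk0⟩
    have h4 : nx ⟨k, hk0⟩ = ⟨k + 1, hk⟩ := by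
      apply Fin.ext
      rw [hnx]
      exact if_neg (by show k + 1 ≠ n; omega)
    rw [h4] at h3
    simp only [dif_pos hk0, dif_pos hk]
    exact h3
  · have hn1 : n - 1 < n := by omega
    have hn0 : 0 < n := by omega
    have h3 := hf' ⟨n - 1, hn1⟩
    have h4 : nx ⟨n - 1, hn1⟩ = ⟨0, hn0⟩ := by
      apply Fin.ext
      rw [hnx]
      exact if_pos (by show n - 1 + 1 = n; omega)
    rw [h4] at h3
    simp only [dif_pos hn1, dif_pos hn0]
    exact h3

end

/-- (CYG) zigzag cycles -/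
theorem pf_CYG : T_CYG := by
  intro V ρ 𝔹 N hB hL
  refine ⟨N + 1, by omega, fun p q hp hq htq0 htq1 => ?_⟩
  obtain ⟨n, hn⟩ : ∃ n, n = 2 * (N + 1) + 2 := ⟨_, rfl⟩
  obtain ⟨P, hP⟩ : ∃ P : ℕ → Fin 2 → V, P = fun k => if k = n - 1 then ![q 1, q 0] else
    if k % 2 = 0 then p else ![p 1, p 0] := ⟨_, rfl⟩
  obtain ⟨t, ht⟩ : ∃ t : ℕ → Fin ρ.m → Prop, t = fun k => ty 𝔹 (if k % 2 = 0 then p 0 else p 1) :=
    ⟨_, rfl⟩
  have hP1 : P (n - 1) = ![q 1, q 0] := by
    rw [hP]
    exact if_pos rfl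
  have hP2 : ∀ k, k ≠ n - 1 → k % 2 = 0 → P k = p := by
    intro k hk hk'
    rw [hP]
    show (if k = n - 1 then ![q 1, q 0] else if k % 2 = 0 then p else ![p 1, p 0]) = p
    rw [if_neg hk, if_pos hk']
  have hP3 : ∀ k, k ≠ n - 1 → k % 2 ≠ 0 → P k = ![p 1, p 0] := by
    intro k hk hk'
    rw [hP]
    show (if k = n - 1 then ![q 1, q 0] else if k % 2 = 0 then p else ![p 1, p 0]) = _
    rw [if_neg hk, if_neg hk']
  have te : ∀ k, k % 2 = 0 → t k = ty 𝔹 (p 0) := by
    intro k hk
    rw [ht]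
    show ty 𝔹 (if k % 2 = 0 then p 0 else p 1) = _
    rw [if_pos hk]
  have tod : ∀ k, k % 2 ≠ 0 → t k = ty 𝔹 (p 1) := by
    intro k hk
    rw [ht]
    show ty 𝔹 (if k % 2 = 0 then p 0 else p 1) = _
    rw [if_neg hk]
  have hper : ∀ k, t (k + n) = t k := by
    intro k
    by_cases hk : k % 2 = 0
    · rw [te k hk, te (k + n) (by omega)]
    · rw [tod k hk, tod (k + n) (by omega)]
  have hne : ∀ k, P k 0 ≠ P k 1 := by
    intro k
    by_cases h1 : k = n - 1
    · rw [h1, hP1]
      exact hq.symm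
    · by_cases h2 : k % 2 = 0
      · rw [hP2 k h1 h2]
        exact hp
      · rw [hP3 k h1 h2]
        exact hp.symm
  have ht0 : ∀ k, k < n → ty 𝔹 (P k 0) = t k := by
    intro k _
    by_cases h1 : k = n - 1
    · rw [tod k (by omega), h1, hP1]
      exact htq1
    · by_cases h2 : k % 2 = 0
      · rw [hP2 k h1 h2, te k h2]
      · rw [hP3 k h1 h2, tod k h2]
        rfl
  have ht1 : ∀ k, k < n → ty 𝔹 (P k 1) = t (k + 1) := by
    intro k _
    by_cases h1 : k = n - 1
    · rw [te (k + 1) (by omega), h1, hP1]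
      exact htq0
    · by_cases h2 : k % 2 = 0
      · rw [hP2 k h1 h2, tod (k + 1) (by omega)]
      · rw [hP3 k h1 h2, te (k + 1) (by omega)]
        rfl
  obtain ⟨f₀, h1, h2⟩ := CYG_core hB.amg N hL n (by omega) (by omega) P t hne hper ht0 ht1
  obtain ⟨f, hf1, hf2, hf3⟩ := cyc_inj hB.amg n (by omega) P hne f₀ h1 h2 (n - 2) (by omega)
  have hlast : f (n - 1) ≠ f 0 := by
    intro h
    rw [tp_iff] at hf2
    exact hne (n - 1) ((hf2.1 0 1).1 h)
  have hinj : ∀ i i', i < n → i' < n → f i = f i' → i = i' := by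
    intro i i' hi hi' h
    by_contra hne'
    by_cases hi1 : 1 ≤ i ∧ i ≤ n - 2
    · exact hf3 i hi1.1 hi1.2 i' hi' (Ne.symm hne') h
    · by_cases hi2 : 1 ≤ i' ∧ i' ≤ n - 2
      · exact hf3 i' hi2.1 hi2.2 i hi hne' h.symm
      · have h3 : i = 0 ∨ i = n - 1 := by omega
        have h4 : i' = 0 ∨ i' = n - 1 := by omega
        rcases h3 with h3 | h3 <;> rcases h4 with h4 | h4
        · omega
        · rw [h3, h4] at h
          exact hlast h.symm
        · rw [h3, h4] at h
          exact hlast h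
        · omega
  refine ⟨fun i => f i, fun i i' h => Fin.ext (hinj i i' (by rw [hn]; exact i.isLt)
    (by rw [hn]; exact i'.isLt) h), fun i i' hii => ⟨fun hi => ?_, fun hi => ?_⟩, ?_⟩
  · have hlt := i'.isLt
    have h3 := hf1 i (by omega)
    rw [hP2 i (by omega) hi] at h3
    show tp 𝔹 ![f i, f i'] = _
    rw [hii]
    exact h3
  · have hlt := i'.isLt
    have h3 := hf1 i (by omega)
    rw [hP3 i (by omega) (by omega)] at h3
    show tp 𝔹 ![f i', f i] = _
    rw [hii]
    exact tp_swap h3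
  · show tp 𝔹 ![f ((0 : Fin (2 * (N + 1) + 2)) : ℕ), f (2 * (N + 1) + 1)] = _
    have e0 : ((0 : Fin (2 * (N + 1) + 2)) : ℕ) = 0 := rfl
    have e1 : n - 1 = 2 * (N + 1) + 1 := by omega
    rw [hP1, e1] at hf2
    rw [e0]
    exact tp_swap hf2

end Pool.Agent.H33.LH
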